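import Pool.Agent.L5helper29.OF.Defs

/-!
# Extraction of the elementary operators
-/

set_option autoImplicit false
set_option linter.all false

namespace Pool.Agent.L5helper61.OF

open Matrix Module Finset Pool.Agent.L5helper73.CC Pool.Agent.L5helper29.OF

section

variable {K : Type} [Field K] [CharZero K] {Y : Type} [AddCommGroup Y] [Module K Y]
  [FiniteDimensional K Y] {I : Type} [Fintype I] [DecidableEq I] {ω : Y →ₗ[K] Y →ₗ[K] K}
  {P : I → Y →ₗ[K] Y} {st : I → I} {A : I → Finset K} {q : K}
  {b : Basis (Σ i, {x // x ∈ A i}) K Y}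

theorem P_basis (h : Dat ω P st) (hb : EigBasis ω P st A q b) (i : I)
    (s : Σ i, {x // x ∈ A i}) : P i (b s) = if s.1 = i then b s else 0 := by
  by_cases hi : s.1 = i
  · rw [if_pos hi, ← hi, hb.mem]
  · rw [if_neg hi, ← hb.mem s, h.or i s.1 (Ne.symm hi)]

theorem dl_ne (h : Dat ω P st) (hb : EigBasis ω P st A q b) {s t : Σ i, {x // x ∈ A i}}
    (hst : ω (b s) (b t) ≠ 0) : t = dl st hb.dual s := by
  obtain ⟨h1, h2⟩ := hb.orth s t hst
  have hs : (s.2 : K) ≠ 0 := hb.ne_zero s.1 s.2 s.2.2
  obtain ⟨i, x, hx⟩ := s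
  obtain ⟨j, y, hy⟩ := t
  simp only at h1 h2 hs
  subst h1
  unfold dl
  simp only
  congr 2
  rw [eq_div_iff hs, mul_comm]
  exact h2

theorem dl_dl (h : Dat ω P st) (hb : EigBasis ω P st A q b) (s : Σ i, {x // x ∈ A i}) :
    dl st hb.dual (dl st hb.dual s) = s := by
  obtain ⟨i, x, hx⟩ := s
  have hs : x ≠ 0 := hb.ne_zero i x hx
  have hq := hb.q_ne
  have e : q / (q / x) = x := by field_simp
  unfold dl
  simp only
  have key : ∀ (j : I) (y : K) (hy : y ∈ A j), j = i → y = x →
      (⟨j, ⟨y, hy⟩⟩ : Σ i, {x // x ∈ A i}) = ⟨i, ⟨x, hx⟩⟩ := by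
    intro j y hy h1 h2
    subst h1
    subst h2
    rfl
  exact key _ _ _ (h.inv i) e

theorem w_ne (h : Dat ω P st) (hb : EigBasis ω P st A q b) (s : Σ i, {x // x ∈ A i}) :
    ω (b s) (b (dl st hb.dual s)) ≠ 0 := by
  intro h0
  apply b.ne_zero s
  apply h.nd
  intro v
  rw [← b.sum_repr v, map_sum]
  refine Finset.sum_eq_zero fun t _ => ?_
  rw [map_smul, smul_eq_mul]
  by_cases ht : ω (b s) (b t) = 0
  · rw [ht, mul_zero]
  · rw [dl_ne h hb ht, h0, mul_zero]

theorem dl_self (h : Dat ω P st) (hb : EigBasis ω P st A q b) (s : Σ i, {x // x ∈ A i}) :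
    dl st hb.dual s ≠ s := by
  intro h1
  have := w_ne h hb s
  rw [h1] at this
  exact this (h.alt _)

/-- the diagonal operator -/
noncomputable def diag (b : Basis (Σ i, {x // x ∈ A i}) K Y) (x : (Σ i, {x // x ∈ A i}) → K) :
    Y →ₗ[K] Y := b.constr K fun s => x s • b s

theorem diag_basis (x : (Σ i, {x // x ∈ A i}) → K) (s : Σ i, {x // x ∈ A i}) :
    diag b x (b s) = x s • b s := by
  unfold diag
  rw [Basis.constr_basis]

theorem repr_diag (x : (Σ i, {x // x ∈ A i}) → K) (y : Y) (t : Σ i, {x // x ∈ A i}) :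
    b.repr (diag b x y) t = x t * b.repr y t := by
  classical
  have h1 : b.coord t ∘ₗ diag b x = x t • b.coord t := by
    refine b.ext fun s => ?_
    simp only [LinearMap.comp_apply, LinearMap.smul_apply, diag_basis, map_smul,
      Basis.coord_apply, Basis.repr_self, Finsupp.smul_apply, smul_eq_mul]
    by_cases hst : s = t
    · rw [hst]
    · rw [Finsupp.single_eq_of_ne (Ne.symm hst), mul_zero, mul_zero]
  have h2 := LinearMap.congr_fun h1 y
  simpa using h2

theorem cart_diag (h : Dat ω P st) (hb : EigBasis ω P st A q b) (x : (Σ i, {x // x ∈ A i}) → K)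
    (h1 : ∀ s, x (dl st hb.dual s) = - x s)
    (h2 : ∀ i, ∑ s : (Σ i, {x // x ∈ A i}), (if s.1 = i then x s else 0) = 0) :
    Cart ω P b (diag b x) := by
  classical
  refine ⟨⟨?_, ?_⟩, ?_, fun s => ⟨x s, diag_basis x s⟩⟩
  · intro i u
    have h3 : diag b x ∘ₗ P i = P i ∘ₗ diag b x := by
      refine b.ext fun s => ?_
      rw [LinearMap.comp_apply, LinearMap.comp_apply, diag_basis, map_smul, P_basis h hb]
      split_ifs with hs
      · rw [diag_basis]
      · rw [map_zero, smul_zero]
    exact LinearMap.congr_fun h3 u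
  · intro u v
    have h3 : ω ∘ₗ diag b x = - (ω.compl₂ (diag b x)) := by
      refine b.ext fun s => b.ext fun t => ?_
      rw [LinearMap.comp_apply, diag_basis, map_smul, LinearMap.smul_apply, LinearMap.neg_apply,
        LinearMap.neg_apply, LinearMap.compl₂_apply, diag_basis, map_smul, smul_eq_mul, smul_eq_mul]
      by_cases hst : ω (b s) (b t) = 0
      · rw [hst, mul_zero, mul_zero, neg_zero]
      · rw [dl_ne h hb hst, h1]
        ring
    have h4 := LinearMap.congr_fun (LinearMap.congr_fun h3 u) v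
    simpa using h4
  · intro i
    unfold tr
    rw [LinearMap.trace_eq_matrix_trace K b, Matrix.trace, ← h2 i]
    refine Finset.sum_congr rfl fun s _ => ?_
    rw [Matrix.diag_apply, LinearMap.toMatrix_apply, LinearMap.comp_apply, P_basis h hb]
    split_ifs with hs
    · rw [diag_basis, map_smul, Finsupp.smul_apply, Basis.repr_self, Finsupp.single_eq_same,
        smul_eq_mul, mul_one]
    · rw [map_zero, map_zero, Finsupp.zero_apply]

open Classical in
/-- `δ_d - δ_{d*}` -/
noncomputable def eps (hd : ∀ i, ∀ x ∈ A i, q / x ∈ A (st i)) (d : Σ i, {x // x ∈ A i}) :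
    (Σ i, {x // x ∈ A i}) → K :=
  fun s => (if s = d then 1 else 0) - (if s = dl st hd d then 1 else 0)

theorem eps_dl (h : Dat ω P st) (hb : EigBasis ω P st A q b) (d s : Σ i, {x // x ∈ A i}) :
    eps hb.dual d (dl st hb.dual s) = - eps hb.dual d s := by
  classical
  unfold eps
  have h1 : (dl st hb.dual s = d) ↔ (s = dl st hb.dual d) := by
    constructor
    · intro h2
      rw [← h2, dl_dl h hb]
    · intro h2
      rw [h2, dl_dl h hb]
  have h2 : (dl st hb.dual s = dl st hb.dual d) ↔ (s = d) := by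
    constructor
    · intro h3
      rw [← dl_dl h hb s, h3, dl_dl h hb]
    · intro h3
      rw [h3]
  simp only [h1, h2]
  ring

theorem sum_eps (hd : ∀ i, ∀ x ∈ A i, q / x ∈ A (st i)) (d : Σ i, {x // x ∈ A i}) (i : I) :
    ∑ s : (Σ i, {x // x ∈ A i}), (if s.1 = i then eps hd d s else 0) =
      (if d.1 = i then 1 else 0) - (if st d.1 = i then 1 else 0) := by
  classical
  have h1 : ∀ s : (Σ i, {x // x ∈ A i}), (if s.1 = i then eps hd d s else 0) =
      (if s = d then (if d.1 = i then (1 : K) else 0) else 0) -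
        (if s = dl st hd d then (if st d.1 = i then (1 : K) else 0) else 0) := by
    intro s
    unfold eps
    by_cases h2 : s = d
    · subst h2
      by_cases h3 : s = dl st hd s
      · have h4 : st s.1 = s.1 := (congrArg Sigma.fst h3).symm
        rw [if_pos rfl, if_pos h3, if_pos rfl, if_pos h3, h4]
        split_ifs <;> ring
      · rw [if_pos rfl, if_neg h3, if_pos rfl, if_neg h3]
        split_ifs <;> ring
    · by_cases h3 : s = dl st hd d
      · have h4 : s.1 = st d.1 := congrArg Sigma.fst h3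
        rw [if_neg h2, if_pos h3, if_neg h2, if_pos h3, h4]
        split_ifs <;> ring
      · rw [if_neg h2, if_neg h3, if_neg h2, if_neg h3]
        split_ifs <;> ring
  rw [Finset.sum_congr rfl fun s _ => h1 s, Finset.sum_sub_distrib, Finset.sum_ite_eq',
    Finset.sum_ite_eq', if_pos (Finset.mem_univ _), if_pos (Finset.mem_univ _)]

theorem cart1 (h : Dat ω P st) (hb : EigBasis ω P st A q b) {d e : Σ i, {x // x ∈ A i}}
    (hde : d.1 = e.1) : Cart ω P b (diag b fun s => eps hb.dual d s - eps hb.dual e s) := by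
  refine cart_diag h hb _ (fun s => ?_) fun i => ?_
  · rw [eps_dl h hb, eps_dl h hb]
    ring
  · have h1 : ∀ s : (Σ i, {x // x ∈ A i}),
        (if s.1 = i then eps hb.dual d s - eps hb.dual e s else 0) =
        (if s.1 = i then eps hb.dual d s else 0) - (if s.1 = i then eps hb.dual e s else 0) := by
      intro s
      split_ifs
      · rfl
      · rw [sub_zero]
    rw [Finset.sum_congr rfl fun s _ => h1 s, Finset.sum_sub_distrib, sum_eps, sum_eps, hde, sub_self]

theorem cart2 (h : Dat ω P st) (hb : EigBasis ω P st A q b) {d : Σ i, {x // x ∈ A i}}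
    (hd : st d.1 = d.1) : Cart ω P b (diag b fun s => eps hb.dual d s) := by
  refine cart_diag h hb _ (fun s => eps_dl h hb d s) fun i => ?_
  rw [sum_eps, hd, sub_self]

/-- separation of the weights -/
theorem sep (h : Dat ω P st) (hb : EigBasis ω P st A q b) {a c a' c' : Σ i, {x // x ∈ A i}}
    (hac : a.1 = c.1) (hne : a ≠ c) (hac' : a'.1 = c'.1) (h1 : ¬ (a' = a ∧ c' = c))
    (h2 : ¬ (a' = dl st hb.dual c ∧ c' = dl st hb.dual a)) :
    ∃ x : (Σ i, {x // x ∈ A i}) → K, Cart ω P b (diag b x) ∧ x c - x a ≠ x c' - x a' := by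
  classical
  by_contra hno
  push Not at hno
  have k1 := hno _ (cart1 h hb hac.symm)
  have hcc := dl_self h hb c
  have haa := dl_self h hb a
  have inj : ∀ s t, dl st hb.dual s = dl st hb.dual t → s = t := by
    intro s t hst
    rw [← dl_dl h hb s, hst, dl_dl h hb]
  by_cases hca : c = dl st hb.dual a
  · -- the long root
    have hac2 : a = dl st hb.dual c := by rw [hca, dl_dl h hb]
    have k2 : ∀ s, (eps hb.dual c s - eps hb.dual a s = 2 ∧ s = c) ∨
        (eps hb.dual c s - eps hb.dual a s = -2 ∧ s = a) ∨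
        (eps hb.dual c s - eps hb.dual a s = 0 ∧ s ≠ c ∧ s ≠ a) := by
      intro s
      unfold eps
      rw [← hca, ← hac2]
      by_cases e1 : s = c
      · left
        refine ⟨?_, e1⟩
        have e2 : ¬ s = a := fun e2 => hne (e2.symm.trans e1)
        rw [if_pos e1, if_neg e2]
        ring
      · by_cases e2 : s = a
        · right; left
          refine ⟨?_, e2⟩
          rw [if_neg e1, if_pos e2]
          ring
        · right; right
          refine ⟨?_, e1, e2⟩
          rw [if_neg e1, if_neg e2]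
          ring
    rcases k2 c with ⟨f1, -⟩ | ⟨f1, f2⟩ | ⟨f1, f2, -⟩
    · rcases k2 a with ⟨g1, g2⟩ | ⟨g1, -⟩ | ⟨g1, -, g2⟩
      · exact hne g2
      · rw [f1, g1] at k1
        rcases k2 c' with ⟨u1, u2⟩ | ⟨u1, u2⟩ | ⟨u1, u2⟩ <;>
          rcases k2 a' with ⟨v1, v2⟩ | ⟨v1, v2⟩ | ⟨v1, v2⟩ <;> rw [u1, v1] at k1
        all_goals first
          | exact h1 ⟨v2, u2⟩
          | (norm_num at k1; done)
      · exact g2 rfl
    · exact hne f2.symm
    · exact f2 rfl
  · -- the short roots
    have hac2 : a ≠ dl st hb.dual c := fun e => hca (by rw [e, dl_dl h hb])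
    have hdd : dl st hb.dual c ≠ dl st hb.dual a := fun e => hne (inj _ _ e).symm
    have k2 : ∀ s, (eps hb.dual c s - eps hb.dual a s = 1 ∧ s = c) ∨
        (eps hb.dual c s - eps hb.dual a s = 1 ∧ s = dl st hb.dual a) ∨
        (eps hb.dual c s - eps hb.dual a s = -1 ∧ s = a) ∨
        (eps hb.dual c s - eps hb.dual a s = -1 ∧ s = dl st hb.dual c) ∨
        (eps hb.dual c s - eps hb.dual a s = 0 ∧ s ≠ c ∧ s ≠ a) := by
      intro s
      unfold eps
      by_cases e1 : s = c
      · left
        refine ⟨?_, e1⟩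
        subst e1
        rw [if_pos rfl, if_neg (Ne.symm hcc), if_neg (Ne.symm hne), if_neg hca]
        ring
      · by_cases e2 : s = a
        · right; right; left
          refine ⟨?_, e2⟩
          subst e2
          rw [if_neg e1, if_neg hac2, if_pos rfl, if_neg (Ne.symm haa)]
          ring
        · by_cases e3 : s = dl st hb.dual a
          · right; left
            refine ⟨?_, e3⟩
            rw [if_neg e1, if_neg e2, if_pos e3, if_neg (fun e4 => hdd (e4.symm.trans e3))]
            ring
          · by_cases e4 : s = dl st hb.dual c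
            · right; right; right; left
              refine ⟨?_, e4⟩
              rw [if_neg e1, if_neg e2, if_neg e3, if_pos e4]
              ring
            · right; right; right; right
              refine ⟨?_, e1, e2⟩
              rw [if_neg e1, if_neg e2, if_neg e3, if_neg e4]
              ring
    have k3 : eps hb.dual c c - eps hb.dual a c = 1 := by
      unfold eps
      rw [if_pos rfl, if_neg (Ne.symm hcc), if_neg (Ne.symm hne), if_neg hca]
      ring
    have k4 : eps hb.dual c a - eps hb.dual a a = -1 := by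
      unfold eps
      rw [if_neg hne, if_neg hac2, if_pos rfl, if_neg (Ne.symm haa)]
      ring
    rw [k3, k4] at k1
    -- the two exceptional transitions
    have k5 : st c.1 = c.1 → eps hb.dual c c - eps hb.dual c a =
        eps hb.dual c c' - eps hb.dual c a' := fun h5 => hno _ (cart2 h hb h5)
    have k6 : eps hb.dual c c = 1 := by
      unfold eps
      rw [if_pos rfl, if_neg (Ne.symm hcc)]
      ring
    have k7 : eps hb.dual c a = 0 := by
      unfold eps
      rw [if_neg hne, if_neg hac2]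
      ring
    have k8 : eps hb.dual c (dl st hb.dual c) = -1 := by
      rw [eps_dl h hb, k6]
    have k9 : eps hb.dual c (dl st hb.dual a) = 0 := by
      rw [eps_dl h hb, k7, neg_zero]
    rw [k6, k7] at k5
    rcases k2 c' with ⟨u1, u2⟩ | ⟨u1, u2⟩ | ⟨u1, u2⟩ | ⟨u1, u2⟩ | ⟨u1, u2⟩ <;>
      rcases k2 a' with ⟨v1, v2⟩ | ⟨v1, v2⟩ | ⟨v1, v2⟩ | ⟨v1, v2⟩ | ⟨v1, v2⟩ <;>
      rw [u1, v1] at k1
    all_goals first
      | exact h1 ⟨v2, u2⟩
      | exact h2 ⟨v2, u2⟩
      | (norm_num at k1; done)
      | skip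
    · have e5 : st c.1 = c.1 := by
        have := hac'
        rw [u2, v2] at this
        exact this
      have := k5 e5
      rw [u2, v2, k6, k8] at this
      norm_num at this
    · have e5 : st c.1 = c.1 := by
        have := hac'
        rw [u2, v2] at this
        rw [← hac]
        exact this.symm
      have := k5 e5
      rw [u2, v2, k9, k7] at this
      norm_num at this

/-- the entries of a good operator between different pieces are zero -/
theorem entry_zero (h : Dat ω P st) (hb : EigBasis ω P st A q b) {X : Y →ₗ[K] Y}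
    (hX : Good ω P X) {s t : Σ i, {x // x ∈ A i}} (hst : t.1 ≠ s.1) : b.repr (X (b s)) t = 0 := by
  have h1 : X (b s) = P s.1 (X (b s)) := by
    rw [← hX.com, hb.mem]
  have h2 : b.coord t ∘ₗ P s.1 = 0 := by
    refine b.ext fun r => ?_
    rw [LinearMap.comp_apply, P_basis h hb, LinearMap.zero_apply]
    split_ifs with hr
    · rw [Basis.coord_apply, Basis.repr_self, Finsupp.single_eq_of_ne]
      intro e
      exact hst (by rw [e, hr])
    · rw [map_zero]
  rw [h1]
  exact LinearMap.congr_fun h2 (X (b s))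

/-- the form against a dual vector -/
theorem form_dl (h : Dat ω P st) (hb : EigBasis ω P st A q b) (y : Y)
    (t : Σ i, {x // x ∈ A i}) :
    ω y (b (dl st hb.dual t)) = b.repr y t * ω (b t) (b (dl st hb.dual t)) := by
  conv_lhs => rw [← b.sum_repr y]
  rw [map_sum, LinearMap.sum_apply, Finset.sum_eq_single t]
  · rw [map_smul, LinearMap.smul_apply, smul_eq_mul]
  · intro s _ hs
    rw [map_smul, LinearMap.smul_apply, smul_eq_mul]
    by_cases h0 : ω (b s) (b (dl st hb.dual t)) = 0
    · rw [h0, mul_zero]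
    · exfalso
      apply hs
      have h1 := dl_ne h hb h0
      rw [← dl_dl h hb s, ← h1, dl_dl h hb]
  · intro h1
    exact absurd (Finset.mem_univ _) h1

/-- the skew relation of the entries -/
theorem skew_entry (h : Dat ω P st) (hb : EigBasis ω P st A q b) {X : Y →ₗ[K] Y}
    (hX : Good ω P X) (s t : Σ i, {x // x ∈ A i}) :
    b.repr (X (b s)) t * ω (b t) (b (dl st hb.dual t)) =
      b.repr (X (b (dl st hb.dual t))) (dl st hb.dual s) *
        ω (b (dl st hb.dual s)) (b s) := by
  have h1 := hX.skew (b s) (b (dl st hb.dual t))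
  rw [form_dl h hb, h.skew (b s) _] at h1
  have h2 := form_dl h hb (X (b (dl st hb.dual t))) (dl st hb.dual s)
  rw [dl_dl h hb] at h2
  rw [h2] at h1
  rw [h1]
  ring

theorem good_Rop (h : Dat ω P st) (hb : EigBasis ω P st A q b) {a c : Σ i, {x // x ∈ A i}}
    (hac : a.1 = c.1) : Good ω P (Rop ω (b c) (b (dl st hb.dual a))) := by
  have hadj : ∀ u i z, ω u (P i z) = ω (P (st i) u) z := by
    intro u i z
    rw [h.adj, h.inv]
  constructor
  · intro i u
    simp only [Rop, LinearMap.add_apply, LinearMap.smulRight_apply, hadj, map_add, map_smul,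
      P_basis h hb]
    have e1 : (dl st hb.dual a).1 = st a.1 := rfl
    rw [e1, hac]
    have e2 : (c.1 = st i) ↔ (st c.1 = i) := by
      constructor
      · intro e
        rw [e, h.inv]
      · intro e
        rw [← e, h.inv]
    have e3 : (st c.1 = st i) ↔ (c.1 = i) := by
      constructor
      · intro e
        rw [← h.inv c.1, e, h.inv]
      · intro e
        rw [e]
    simp only [e2, e3]
    split_ifs <;> simp
  · intro u v
    simp only [Rop, LinearMap.add_apply, LinearMap.smulRight_apply, map_add, map_smul,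
      smul_eq_mul, LinearMap.smul_apply]
    rw [h.skew u (b (dl st hb.dual a)), h.skew u (b c)]
    ring

/-- one step of the elimination -/
theorem step (h : Dat ω P st) (hb : EigBasis ω P st A q b) {𝔥 : Submodule K (Y →ₗ[K] Y)}
    (hbr : ∀ X ∈ 𝔥, ∀ X' ∈ 𝔥, X ∘ₗ X' - X' ∘ₗ X ∈ 𝔥) (hgood : ∀ X ∈ 𝔥, Good ω P X)
    (hcart : ∀ X, Cart ω P b X → X ∈ 𝔥) {a c : Σ i, {x // x ∈ A i}}
    (hac : a.1 = c.1) (hne : a ≠ c) {X : Y →ₗ[K] Y} (hX : X ∈ 𝔥) (h0 : b.repr (X (b a)) c ≠ 0)
    (B : Finset ((Σ i, {x // x ∈ A i}) × (Σ i, {x // x ∈ A i})))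
    (hB : ∀ r ∈ B, ¬ (r.1 = a ∧ r.2 = c) ∧
      ¬ (r.1 = dl st hb.dual c ∧ r.2 = dl st hb.dual a)) :
    ∃ X' ∈ 𝔥, b.repr (X' (b a)) c ≠ 0 ∧ ∀ r ∈ B, b.repr (X' (b r.1)) r.2 = 0 := by
  classical
  induction B using Finset.induction_on with
  | empty => exact ⟨X, hX, h0, fun r hr => absurd hr (Finset.notMem_empty r)⟩
  | insert r B hr ih =>
    obtain ⟨X', hX', h1, h2⟩ := ih fun s hs => hB s (Finset.mem_insert_of_mem hs)
    obtain ⟨k1, k2⟩ := hB r (Finset.mem_insert_self r B)
    by_cases hrr : r.1.1 = r.2.1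
    · obtain ⟨x, hx, hxx⟩ := sep h hb hac hne hrr k1 k2
      have hent : ∀ s t, b.repr ((diag b x ∘ₗ X' - X' ∘ₗ diag b x -
          (x r.2 - x r.1) • X') (b s)) t = (x t - x s - (x r.2 - x r.1)) *
            b.repr (X' (b s)) t := by
        intro s t
        rw [LinearMap.sub_apply, LinearMap.sub_apply, LinearMap.comp_apply, LinearMap.comp_apply,
          diag_basis, map_smul, LinearMap.smul_apply, map_sub, map_sub, Finsupp.sub_apply,
          Finsupp.sub_apply, repr_diag, map_smul, map_smul, Finsupp.smul_apply, Finsupp.smul_apply,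
          smul_eq_mul, smul_eq_mul]
        ring
      refine ⟨diag b x ∘ₗ X' - X' ∘ₗ diag b x - (x r.2 - x r.1) • X', ?_, ?_, ?_⟩
      · exact 𝔥.sub_mem (hbr _ (hcart _ hx) _ hX') (𝔥.smul_mem _ hX')
      · rw [hent]
        exact mul_ne_zero (sub_ne_zero.2 hxx) h1
      · intro s hs
        rw [hent]
        rcases Finset.mem_insert.1 hs with e | e
        · rw [e, sub_self, zero_mul]
        · rw [h2 s e, mul_zero]
    · refine ⟨X', hX', h1, fun s hs => ?_⟩
      rcases Finset.mem_insert.1 hs with e | e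
      · rw [e]
        exact entry_zero h hb (hgood _ hX') (Ne.symm hrr)
      · exact h2 s e

theorem repr_Rop (h : Dat ω P st) (hb : EigBasis ω P st A q b) {a c : Σ i, {x // x ∈ A i}}
    (s t : Σ i, {x // x ∈ A i}) (h1 : ¬ (s = a ∧ t = c))
    (h2 : ¬ (s = dl st hb.dual c ∧ t = dl st hb.dual a)) :
    b.repr (Rop ω (b c) (b (dl st hb.dual a)) (b s)) t = 0 := by
  classical
  simp only [Rop, LinearMap.add_apply, LinearMap.smulRight_apply, map_add, map_smul,
    Finsupp.add_apply, Finsupp.smul_apply, Basis.repr_self, smul_eq_mul]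
  have e1 : ω (b c) (b s) * (Finsupp.single (dl st hb.dual a) (1 : K)) t = 0 := by
    by_cases k1 : t = dl st hb.dual a
    · have k2 : ω (b c) (b s) = 0 := by
        by_contra k3
        exact h2 ⟨dl_ne h hb k3, k1⟩
      rw [k2, zero_mul]
    · rw [Finsupp.single_eq_of_ne k1, mul_zero]
  have e2 : ω (b (dl st hb.dual a)) (b s) * (Finsupp.single c (1 : K)) t = 0 := by
    by_cases k1 : t = c
    · have k2 : ω (b (dl st hb.dual a)) (b s) = 0 := by
        by_contra k3
        have k4 := dl_ne h hb k3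
        rw [dl_dl h hb] at k4
        exact h1 ⟨k4, k1⟩
      rw [k2, zero_mul]
    · rw [Finsupp.single_eq_of_ne k1, mul_zero]
  rw [e1, e2, add_zero]

theorem repr_Rop_ne (h : Dat ω P st) (hb : EigBasis ω P st A q b)
    {a c : Σ i, {x // x ∈ A i}} (hne : a ≠ c) :
    b.repr (Rop ω (b c) (b (dl st hb.dual a)) (b a)) c ≠ 0 := by
  classical
  simp only [Rop, LinearMap.add_apply, LinearMap.smulRight_apply, map_add, map_smul,
    Finsupp.add_apply, Finsupp.smul_apply, Basis.repr_self, smul_eq_mul, Finsupp.single_eq_same,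
    mul_one]
  have hw := w_ne h hb (dl st hb.dual a)
  rw [dl_dl h hb] at hw
  by_cases k1 : c = dl st hb.dual a
  · rw [k1, Finsupp.single_eq_same, mul_one, ← two_mul]
    exact mul_ne_zero two_ne_zero hw
  · rw [Finsupp.single_eq_of_ne k1, mul_zero, zero_add]
    exact hw

end

/-- **extraction of the elementary operators** -/
theorem extr : St_EXTR := by
  intro K _ _ Y _ _ _ I _ _ ω P st h A q b hb 𝔥 hbr hgood hcart a c hne X hX h0
  classical
  have hac : a.1 = c.1 := by
    by_contra hac
    exact h0 (entry_zero h hb (hgood X hX) (Ne.symm hac))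
  obtain ⟨X', hX', h1, h2⟩ := step h hb hbr hgood hcart hac hne hX h0
    ((Finset.univ : Finset ((Σ i, {x // x ∈ A i}) × (Σ i, {x // x ∈ A i}))).filter fun r =>
      ¬ (r.1 = a ∧ r.2 = c) ∧ ¬ (r.1 = dl st hb.dual c ∧ r.2 = dl st hb.dual a))
    (fun r hr => (Finset.mem_filter.1 hr).2)
  have h3 : ∀ s t, ¬ (s = a ∧ t = c) → ¬ (s = dl st hb.dual c ∧ t = dl st hb.dual a) →
      b.repr (X' (b s)) t = 0 := fun s t k1 k2 =>
    h2 (s, t) (Finset.mem_filter.2 ⟨Finset.mem_univ _, k1, k2⟩)
  set R := Rop ω (b c) (b (dl st hb.dual a)) with hR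
  have hRg : Good ω P R := good_Rop h hb hac
  have hR0 : b.repr (R (b a)) c ≠ 0 := repr_Rop_ne h hb hne
  -- the difference
  set Z : Y →ₗ[K] Y := b.repr (X' (b a)) c • R - b.repr (R (b a)) c • X' with hZ
  have hX'g := hgood X' hX'
  have hZg : Good ω P Z := by
    constructor
    · intro i u
      simp only [hZ, LinearMap.sub_apply, LinearMap.smul_apply, hRg.com, hX'g.com, map_sub,
        map_smul]
    · intro u v
      simp only [hZ, LinearMap.sub_apply, LinearMap.smul_apply, map_sub, map_smul, hRg.skew,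
        hX'g.skew, smul_eq_mul]
      ring
  have hZe : ∀ s t, b.repr (Z (b s)) t = b.repr (X' (b a)) c * b.repr (R (b s)) t -
      b.repr (R (b a)) c * b.repr (X' (b s)) t := by
    intro s t
    rw [hZ, LinearMap.sub_apply, LinearMap.smul_apply, LinearMap.smul_apply, map_sub, map_smul,
      map_smul, Finsupp.sub_apply, Finsupp.smul_apply, Finsupp.smul_apply, smul_eq_mul,
      smul_eq_mul]
  have hZ0 : Z = 0 := by
    refine b.ext fun s => ?_
    rw [LinearMap.zero_apply]
    apply b.repr.injective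
    rw [map_zero]
    ext t
    rw [Finsupp.zero_apply]
    by_cases k1 : s = a ∧ t = c
    · rw [hZe, k1.1, k1.2]
      ring
    · by_cases k2 : s = dl st hb.dual c ∧ t = dl st hb.dual a
      · have k3 := skew_entry h hb hZg a c
        have k4 : b.repr (Z (b a)) c = 0 := by
          rw [hZe]
          ring
        rw [k4, zero_mul] at k3
        have hw := w_ne h hb (dl st hb.dual a)
        rw [dl_dl h hb] at hw
        rw [k2.1, k2.2]
        exact (mul_eq_zero.1 k3.symm).resolve_right hw
      · rw [hZe, h3 s t k1 k2, hR, repr_Rop h hb s t k1 k2]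
        ring
  have hfin : R = (b.repr (X' (b a)) c)⁻¹ • (b.repr (R (b a)) c • X') := by
    have k1 : b.repr (X' (b a)) c • R = b.repr (R (b a)) c • X' := sub_eq_zero.1 hZ0
    rw [← k1, smul_smul, inv_mul_cancel₀ h1, one_smul]
  rw [hfin]
  exact 𝔥.smul_mem _ (𝔥.smul_mem _ hX')

end Pool.Agent.L5helper61.OF
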